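import Pool.Agent.Lib_MP_debdb1_mp.Main
import Pool.Agent.Lib_MP_debdb1_mp.Total

/-!
# Reduced MaxCut QAOA Lie algebras: almost all graphs

The definitions used in the statement (`Op`, `pz`, `px`, `HP`, `HM`, `gen`, `gStd`, `HPr`, `gRed`, `Equi`, `Asymmetric`) are in
`Pool/Agent/Lib_MP_debdb1_mp/Defs.lean`.
-/

set_option autoImplicit false

namespace Pool.Agent.Results.MP_debdb1_mp.AlmostAllGraphs

open Pool.Agent.QAOA

open Classical in
/-- (1) If every partition of the vertex set of a finite graph which is equitable modulo 2 has a singleton class, then some vertex `v`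
satisfies `dim g^v < dim g`. (2) If the discrete partition is the only one which is equitable modulo 2, then the graph is asymmetric
and `dim g^v < dim g` for every vertex `v`. (3) All but a proportion of at most `2 ^ 1458 / 2 ^ (n / 8)` of the graphs on `n` labelled
vertices are asymmetric and satisfy `dim g^v < dim g` for every vertex `v`. -/
theorem result :
    (∀ (V : Type) [Fintype V] [DecidableEq V] (G : SimpleGraph V),
      (∀ c : V → V, Equi G c → ∃ v, ∀ w, c w = c v → w = v) →
        ∃ v, Module.finrank ℝ (gRed G v) < Module.finrank ℝ (gStd G)) ∧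
    (∀ (V : Type) [Fintype V] [DecidableEq V] (G : SimpleGraph V),
      (∀ c : V → V, Equi G c → Function.Injective c) →
        Asymmetric G ∧ ∀ v, Module.finrank ℝ (gRed G v) < Module.finrank ℝ (gStd G)) ∧
    (∀ n : ℕ, ((Finset.univ.filter (fun G : SimpleGraph (Fin n) => ¬ (Asymmetric G ∧
      ∀ v, Module.finrank ℝ (gRed G v) < Module.finrank ℝ (gStd G)))).card : ℝ) ≤
        2 ^ 1458 / 2 ^ (n / 8) * (Fintype.card (SimpleGraph (Fin n)) : ℝ)) := by
  refine ⟨fun V _ _ G h => criterion G h, fun V _ _ G h => criterion_all G h, fun n => ?_⟩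
  have h := almost_all n
  rw [card_graphs, div_mul_eq_mul_div, le_div_iff₀ (by positivity)]
  have h2 : (((Finset.univ.filter (fun G : SimpleGraph (Fin n) => ¬ (Asymmetric G ∧
      ∀ v, Module.finrank ℝ (gRed G v) < Module.finrank ℝ (gStd G)))).card * 2 ^ (n / 8) : ℕ) : ℝ) ≤
        ((2 ^ 1458 * 2 ^ (n.choose 2) : ℕ) : ℝ) := Nat.cast_le.2 h
  rw [Nat.cast_mul, Nat.cast_mul, Nat.cast_pow, Nat.cast_pow, Nat.cast_pow] at h2
  rw [Nat.cast_pow]
  exact h2

end Pool.Agent.Results.MP_debdb1_mp.AlmostAllGraphs
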