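import Pool.Agent.Lib_MP_debdb1_cz.Main

/-!
# Reduced MaxCut QAOA Lie algebras: a connected asymmetric graph whose reduced algebras are all larger than the full one

The definitions used in the statement (`Op`, `pz`, `px`, `HP`, `HM`, `gen`, `gStd`, `HPr`, `gRed`, `Asymmetric`) are in
`Pool/Agent/Lib_MP_debdb1_mp/Defs.lean`.

The graph: the core is the square of a cycle of length `8 L` (`L` a large prime) with the additional edges `{8 i, 8 i + 3}` and
`{8 i + 1, 8 i + 5}`; to the core vertex `8 i + 7` of every block except one a gadget with 8 vertices is attached, by all 8 edges. The
gadget has a state which is annihilated by its cost operator, its mixer and the sum of its `Z`. So the full algebra is a quotient of the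
full algebra of the graph with all `L` gadgets, which is invariant under a rotation of order `L`; this makes it small. Freezing a
vertex destroys the rotation and lets one control all core vertices and all gadgets (except the frozen one) separately.
-/

set_option autoImplicit false

namespace Pool.Agent.Results.MP_debdb1_mp.ConnectedCounterexample

open Pool.Agent.QAOA

/-- For every `C` there is a finite connected asymmetric graph such that `dim g^v > C dim g_std` for every vertex `v`. -/
theorem result : ∀ C : ℕ, ∃ (V : Type) (_ : Fintype V) (_ : DecidableEq V) (Γ : SimpleGraph V), Γ.Connected ∧
    Asymmetric Γ ∧ ∀ v, C * Module.finrank ℝ (gStd Γ) < Module.finrank ℝ (gRed Γ v) :=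
  CX.main_conn

end Pool.Agent.Results.MP_debdb1_mp.ConnectedCounterexample
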