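import Pool.Agent.Lib_MP_debdb1_mp.Embed
import Pool.Agent.Lib_MP_debdb1_mp.Part
import Pool.Agent.Lib_MP_debdb1.ForestMain

/-!
# MP_debdb1_mp: asymmetric forests

For every asymmetric forest `G` and every vertex `v`, freezing the spin at `v` strictly lowers the
dimension of the dynamical Lie algebra of MaxCut QAOA.

Proof. There is a partition of the vertices which is equitable modulo 2 and all of whose class sums
`i ∑ X_a` lie in the full Lie algebra. In an asymmetric forest every partition which is equitable
modulo 2 is discrete (`forest_discrete`), so `i X_v` lies in the full Lie algebra for every vertex `v`.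
The reduced Lie algebra at `v` embeds in the full one, and `i X_v` is not in its image.
-/

set_option autoImplicit false

namespace Pool.Agent.Results.MP_debdb1_mp.Forests

open Pool.Agent.QAOA Pool.Agent.DlaMaxCut

theorem mod2_of_equi {V : Type} [Fintype V] {G : SimpleGraph V} {c : V → V} (h : Equi G c) :
    Mod2Equitable G (Setoid.ker c) := by
  classical
  intro j k l hjk
  have e : ∀ i : V, {w : V | G.Adj i w ∧ Setoid.ker c l w}.ncard =
      (Finset.univ.filter (fun x => G.Adj i x ∧ c x = c l)).card := by
    intro i
    rw [Set.ncard_eq_toFinset_card']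
    congr 1
    ext w
    simp only [Set.mem_toFinset, Finset.mem_filter, Finset.mem_univ, true_and]
    exact and_congr_right fun _ => ⟨fun h' => (Setoid.ker_def.1 h').symm, fun h' => Setoid.ker_def.2 h'.symm⟩
  have h1 := h j k (Setoid.ker_def.1 hjk) (c l)
  rw [e j, e k, Nat.odd_iff, Nat.odd_iff]
  have h2 : (Finset.univ.filter (fun x => G.Adj j x ∧ c x = c l)).card % 2 =
      (Finset.univ.filter (fun x => G.Adj k x ∧ c x = c l)).card % 2 := by
    refine Eq.trans ?_ (h1.trans ?_)
    · congr 2
    · congr 2
  rw [h2]

/-- Let `G` be a finite forest whose only automorphism is the identity. Then for every vertex `v` the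
reduced Lie algebra at `v` has strictly smaller dimension than the full Lie algebra. -/
theorem result (V : Type) [Fintype V] [DecidableEq V] (G : SimpleGraph V) (hG : G.IsAcyclic)
    (hasym : Asymmetric G) (v : V) :
    Module.finrank ℝ (gRed G v) < Module.finrank ℝ (gStd G) := by
  obtain ⟨c, hc, hs⟩ := exists_equi G
  refine finrank_gRed_lt G v (hs v fun w hw => ?_)
  exact Forest.forest_discrete hG hasym (mod2_of_equi hc) (Setoid.ker_def.2 hw)

end Pool.Agent.Results.MP_debdb1_mp.Forests
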